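import Pool.Agent.Helper40.AC.Compact
import Pool.Agent.Helper9.AC.Mazur

/-! AC-16: elements of the asymptotic structure from games. -/

set_option autoImplicit false

namespace Pool.Agent.Helper23.AC

variable {X : Type*} [NormedAddCommGroup X] [NormedSpace ℝ X]

theorem exists_asymStruct_of_game {k : ℕ} (_hk : 0 < k) (c : ℝ)
    (h : Game X k fun x => (∀ j, ‖x j‖ = 1) ∧ c ≤ ‖∑ j, x j‖) :
    ∃ N ∈ AsymStruct X k, c - 1 ≤ N fun _ => 1 := by
  obtain ⟨N, hN, hc⟩ := exists_asymStruct_aux c fun δ hδ => game_almost_mono h δ hδ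
  exact ⟨N, hN, by linarith⟩

end Pool.Agent.Helper23.AC
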