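import Pool.Agent.Helper9.AC.Games

/-! AC-16: compactness of the set of normalized monotone norms. -/

set_option autoImplicit false

namespace Pool.Agent.Helper23.AC

open Finset

section norms

variable {k : ℕ} {N N' : (Fin k → ℝ) → ℝ}

theorem isE_zero (h : IsE k N) : N 0 = 0 := by
  have := h.smul 0 0
  simpa using this

theorem isE_nonneg (h : IsE k N) (t : Fin k → ℝ) : 0 ≤ N t := by
  have h1 := h.add t ((-1 : ℝ) • t)
  rw [h.smul] at h1
  have h2 : t + (-1 : ℝ) • t = 0 := by ext; simp
  rw [h2, isE_zero h] at h1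
  simp only [abs_neg, abs_one, one_mul] at h1
  linarith

/-- coordinates are bounded by `2 N`, from the closed conditions only -/
theorem coord_le_of (hadd : ∀ s t, N (s + t) ≤ N s + N t)
    (hsmul : ∀ (a : ℝ) (t), N (a • t) = |a| * N t) (hn : ∀ j, N (Pi.single j 1) = 1)
    (hm : ∀ (t : Fin k → ℝ) (m : ℕ), N (fun j => if (j : ℕ) < m then t j else 0) ≤ N t)
    (t : Fin k → ℝ) (j : Fin k) : |t j| ≤ 2 * N t := by
  have h1 : (t j) • (Pi.single j 1 : Fin k → ℝ) =
      (fun i : Fin k => if (i : ℕ) < (j : ℕ) + 1 then t i else 0) +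
        (-1 : ℝ) • (fun i : Fin k => if (i : ℕ) < (j : ℕ) then t i else 0) := by
    ext i
    simp only [Pi.smul_apply, Pi.add_apply, smul_eq_mul]
    by_cases hij : i = j
    · subst hij
      simp
    · have : (i : ℕ) ≠ (j : ℕ) := fun h => hij (Fin.ext h)
      rw [Pi.single_eq_of_ne hij]
      by_cases hlt : (i : ℕ) < (j : ℕ)
      · rw [if_pos (by omega), if_pos hlt]
        ring
      · rw [if_neg (by omega), if_neg hlt]
        ring
  have h2 := hadd (fun i : Fin k => if (i : ℕ) < (j : ℕ) + 1 then t i else 0)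
    ((-1 : ℝ) • (fun i : Fin k => if (i : ℕ) < (j : ℕ) then t i else 0))
  rw [← h1, hsmul, hsmul, hn] at h2
  have h3 := hm t ((j : ℕ) + 1)
  have h4 := hm t (j : ℕ)
  simp only [abs_neg, abs_one, one_mul, mul_one] at h2
  linarith

theorem norm_le_isE (h : IsE k N) (t : Fin k → ℝ) : ‖t‖ ≤ 2 * N t := by
  refine (pi_norm_le_iff_of_nonneg (by have := isE_nonneg h t; linarith)).2 fun j => ?_
  rw [Real.norm_eq_abs]
  exact coord_le_of h.add h.smul h.normalized h.monotone t j

theorem isE_le_sum (h : IsE k N) (t : Fin k → ℝ) : N t ≤ ∑ j, |t j| := by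
  have h1 : t = ∑ j, t j • (Pi.single j 1 : Fin k → ℝ) := by
    ext i
    rw [Finset.sum_apply]
    simp only [Pi.smul_apply, smul_eq_mul]
    rw [Finset.sum_eq_single i]
    · simp
    · intro b _ hb
      rw [Pi.single_eq_of_ne (Ne.symm hb)]
      simp
    · simp
  have h2 : ∀ s : Finset (Fin k), N (∑ j ∈ s, t j • (Pi.single j 1 : Fin k → ℝ)) ≤
      ∑ j ∈ s, |t j| := by
    intro s
    induction s using Finset.induction_on with
    | empty => simp [isE_zero h]
    | insert a s ha ih =>
      rw [Finset.sum_insert ha, Finset.sum_insert ha]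
      refine (h.add _ _).trans ?_
      rw [h.smul, h.normalized, mul_one]
      linarith
  calc N t = N (∑ j, t j • (Pi.single j 1 : Fin k → ℝ)) := by rw [← h1]
    _ ≤ _ := h2 _

theorem isE_lip (h : IsE k N) (s t : Fin k → ℝ) : N s ≤ N t + k * ‖s - t‖ := by
  have h1 := h.add t (s - t)
  have h2 := isE_le_sum h (s - t)
  have h3 : ∑ j, |(s - t) j| ≤ ∑ _j : Fin k, ‖s - t‖ :=
    Finset.sum_le_sum fun j _ => by
      rw [← Real.norm_eq_abs]
      exact norm_le_pi_norm (s - t) j
  rw [Finset.sum_const, Finset.card_univ, Fintype.card_fin, nsmul_eq_mul] at h3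
  have h4 : t + (s - t) = s := by abel
  rw [h4] at h1
  linarith

/-- pointwise closeness on a finite net gives equivalence with constant near one -/
theorem exists_nhds_equiv (h : IsE k N) (θ : ℝ) (hθ : 0 < θ) :
    ∃ V ∈ nhds N, ∀ N' ∈ V, IsE k N' → ∀ t, N' t ≤ (1 + θ) * N t ∧ N t ≤ (1 + θ) * N' t := by
  set η : ℝ := θ / (4 * (2 * k + 1)) with hη
  have hk : (0 : ℝ) < 4 * (2 * k + 1) := by positivity
  have hη0 : 0 < η := by positivity
  have hηk : (2 * k + 1) * η = θ / 4 := by
    rw [hη]
    field_simp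
  obtain ⟨T, hTs, hTf, hT⟩ := (isCompact_sphere (0 : Fin k → ℝ) 1).finite_cover_balls hη0
  refine ⟨{N' | ∀ t ∈ T, |N' t - N t| < η}, ?_, ?_⟩
  · refine (Filter.eventually_all_finite hTf).2 fun t _ => ?_
    have h1 : Filter.Tendsto (fun N' : (Fin k → ℝ) → ℝ => N' t) (nhds N) (nhds (N t)) :=
      (continuous_apply t).tendsto N
    have h2 := (Metric.tendsto_nhds.1 h1) η hη0
    simpa [Real.dist_eq] using h2
  · intro N' hN' hE'
    have key : ∀ u : Fin k → ℝ, ‖u‖ = 1 → |N' u - N u| ≤ θ / 4 := by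
      intro u hu
      have hu' : u ∈ Metric.sphere (0 : Fin k → ℝ) 1 := by simpa using hu
      obtain ⟨t, ht, htu⟩ := Set.mem_iUnion₂.1 (hT hu')
      rw [Metric.mem_ball, dist_eq_norm] at htu
      have h1 := isE_lip h u t
      have h2 := isE_lip h t u
      have h3 := isE_lip hE' u t
      have h4 := isE_lip hE' t u
      have h5 := abs_lt.1 (hN' t ht)
      rw [norm_sub_rev t u] at h2 h4
      have h6 : (k : ℝ) * ‖u - t‖ ≤ k * η := by
        apply mul_le_mul_of_nonneg_left htu.le
        positivity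
      rw [abs_le]
      constructor <;> nlinarith [h5.1, h5.2]
    have key2 : ∀ u : Fin k → ℝ, ‖u‖ = 1 → N' u ≤ (1 + θ) * N u ∧ N u ≤ (1 + θ) * N' u := by
      intro u hu
      have h1 := abs_le.1 (key u hu)
      have h2 := norm_le_isE h u
      have h3 := norm_le_isE hE' u
      rw [hu] at h2 h3
      constructor <;> nlinarith [h1.1, h1.2]
    intro t
    by_cases ht : t = 0
    · subst ht
      simp [isE_zero h, isE_zero hE']
    · have htn : 0 < ‖t‖ := norm_pos_iff.2 ht
      have hu : ‖(‖t‖⁻¹ • t)‖ = 1 := by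
        rw [norm_smul, norm_inv, norm_norm]
        field_simp
      obtain ⟨h1, h2⟩ := key2 _ hu
      rw [h.smul, hE'.smul, abs_of_pos (by positivity)] at h1 h2
      have h3 : 0 < ‖t‖⁻¹ := by positivity
      constructor
      · refine le_of_mul_le_mul_left ?_ h3
        linarith
      · refine le_of_mul_le_mul_left ?_ h3
        linarith

theorem isCompact_isE (c : ℝ) : IsCompact {N : (Fin k → ℝ) → ℝ | IsE k N ∧ c ≤ N fun _ => 1} := by
  have h1 : IsCompact (Set.pi Set.univ fun t : Fin k → ℝ => Set.Icc (0 : ℝ) (∑ j, |t j|)) :=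
    isCompact_univ_pi fun _ => isCompact_Icc
  refine h1.of_isClosed_subset ?_ ?_
  · have h2 : {N : (Fin k → ℝ) → ℝ | IsE k N ∧ c ≤ N fun _ => 1} =
        {N | (∀ s t, N (s + t) ≤ N s + N t) ∧ (∀ (a : ℝ) (t), N (a • t) = |a| * N t) ∧
          (∀ j, N (Pi.single j 1) = 1) ∧
          (∀ (t : Fin k → ℝ) (m : ℕ), N (fun j => if (j : ℕ) < m then t j else 0) ≤ N t) ∧
          c ≤ N fun _ => 1} := by
      ext N
      constructor
      · rintro ⟨h, hc⟩
        exact ⟨h.add, h.smul, h.normalized, h.monotone, hc⟩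
      · rintro ⟨h1, h2, h3, h4, h5⟩
        refine ⟨⟨h1, h2, ?_, h3, h4⟩, h5⟩
        intro t ht
        ext j
        have := coord_le_of h1 h2 h3 h4 t j
        rw [ht, mul_zero] at this
        simpa using abs_nonpos_iff.1 this
    rw [h2]
    simp only [Set.ofPred_and, Set.ofPred_forall]
    refine IsClosed.inter ?_ (IsClosed.inter ?_ (IsClosed.inter ?_ (IsClosed.inter ?_ ?_)))
    · exact isClosed_iInter fun s => isClosed_iInter fun t =>
        isClosed_le (by fun_prop) (by fun_prop)
    · exact isClosed_iInter fun a => isClosed_iInter fun t =>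
        isClosed_eq (continuous_apply _) (continuous_const.mul (continuous_apply _))
    · exact isClosed_iInter fun j => isClosed_eq (continuous_apply _) continuous_const
    · exact isClosed_iInter fun t => isClosed_iInter fun m =>
        isClosed_le (continuous_apply _) (continuous_apply _)
    · exact isClosed_le continuous_const (continuous_apply _)
  · rintro N ⟨h, _⟩ t _
    exact ⟨isE_nonneg h t, isE_le_sum h t⟩

end norms

section game

variable {X : Type*} [NormedAddCommGroup X] [NormedSpace ℝ X]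

/-- the monotone hull of the norm of an almost monotone sequence -/
theorem exists_isE_of_almost {k : ℕ} (x : Fin k → X) (hx : ∀ j, ‖x j‖ = 1) (δ : ℝ) (hδ : 0 < δ)
    (hm : ∀ (t : Fin k → ℝ) (m : ℕ),
      seqN x (fun j => if (j : ℕ) < m then t j else 0) ≤ (1 + δ) * seqN x t) :
    ∃ N : (Fin k → ℝ) → ℝ, IsE k N ∧ ∀ t, seqN x t ≤ N t ∧ N t ≤ (1 + δ) * seqN x t := by
  classical
  let tr : ℕ → (Fin k → ℝ) → (Fin k → ℝ) := fun m t j => if (j : ℕ) < m then t j else 0
  let S : Finset ℕ := Finset.range (k + 1)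
  have hS : S.Nonempty := ⟨0, by simp [S]⟩
  let N : (Fin k → ℝ) → ℝ := fun t => S.sup' hS fun m => seqN x (tr m t)
  have htrk : ∀ m t, k ≤ m → tr m t = t := by
    intro m t hkm
    ext j
    simp only [tr]
    rw [if_pos (by omega)]
  have hle : ∀ m t, seqN x (tr m t) ≤ N t := by
    intro m t
    rcases le_or_gt m k with h | h
    · exact Finset.le_sup' (fun m => seqN x (tr m t)) (Finset.mem_range.2 (by omega))
    · have h1 := Finset.le_sup' (fun m => seqN x (tr m t))
        (Finset.mem_range.2 (by omega : k < k + 1))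
      rw [htrk m t h.le]
      change seqN x (tr k t) ≤ N t at h1
      rwa [htrk k t le_rfl] at h1
  have hsup : ∀ t a, (∀ m, seqN x (tr m t) ≤ a) → N t ≤ a := fun t a h =>
    Finset.sup'_le _ _ fun m _ => h m
  have hadd0 : ∀ s t, seqN x (s + t) ≤ seqN x s + seqN x t := by
    intro s t
    unfold seqN
    rw [show (∑ j, (s + t) j • x j) = (∑ j, s j • x j) + ∑ j, t j • x j by
      rw [← Finset.sum_add_distrib]
      exact Finset.sum_congr rfl fun j _ => by rw [Pi.add_apply, add_smul]]
    exact norm_add_le _ _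
  have hsmul0 : ∀ (a : ℝ) t, seqN x (a • t) = |a| * seqN x t := by
    intro a t
    unfold seqN
    rw [show (∑ j, (a • t) j • x j) = a • ∑ j, t j • x j by
      rw [Finset.smul_sum]
      exact Finset.sum_congr rfl fun j _ => by rw [Pi.smul_apply, smul_eq_mul, mul_smul]]
    rw [norm_smul, Real.norm_eq_abs]
  have htradd : ∀ m s t, tr m (s + t) = tr m s + tr m t := by
    intro m s t
    ext j
    simp only [tr, Pi.add_apply]
    split_ifs <;> simp
  have htrsmul : ∀ m (a : ℝ) t, tr m (a • t) = a • tr m t := by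
    intro m a t
    ext j
    simp only [tr, Pi.smul_apply, smul_eq_mul]
    split_ifs <;> simp
  have htrtr : ∀ m m' t, tr m (tr m' t) = tr (min m m') t := by
    intro m m' t
    ext j
    simp only [tr, lt_min_iff]
    by_cases h1 : (j : ℕ) < m <;> by_cases h2 : (j : ℕ) < m' <;> simp [h1, h2]
  have hNub : ∀ t, seqN x t ≤ N t := by
    intro t
    have := hle k t
    rwa [htrk k t le_rfl] at this
  have hsingle : ∀ j, seqN x (Pi.single j 1) = 1 := by
    intro j
    unfold seqN
    rw [Finset.sum_eq_single j]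
    · simp [hx j]
    · intro b _ hb
      rw [Pi.single_eq_of_ne hb, zero_smul]
    · simp
  have hzero : seqN x 0 = 0 := by simp [seqN]
  have h1 : ∀ s t, N (s + t) ≤ N s + N t := by
    intro s t
    refine hsup _ _ fun m => ?_
    rw [htradd]
    exact (hadd0 _ _).trans (add_le_add (hle _ _) (hle _ _))
  have h2 : ∀ (a : ℝ) t, N (a • t) = |a| * N t := by
    have aux : ∀ (a : ℝ) t, N (a • t) ≤ |a| * N t := by
      intro a t
      refine hsup _ _ fun m => ?_
      rw [htrsmul, hsmul0]
      exact mul_le_mul_of_nonneg_left (hle _ _) (abs_nonneg _)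
    intro a t
    refine le_antisymm (aux a t) ?_
    by_cases ha : a = 0
    · subst ha
      simp only [abs_zero, zero_mul]
      exact (norm_nonneg _).trans (hNub _)
    · have h3 := aux a⁻¹ (a • t)
      rw [smul_smul, inv_mul_cancel₀ ha, one_smul, abs_inv] at h3
      have h4 : 0 < |a| := abs_pos.2 ha
      calc |a| * N t ≤ |a| * (|a|⁻¹ * N (a • t)) := mul_le_mul_of_nonneg_left h3 h4.le
        _ = N (a • t) := by
          rw [← mul_assoc, mul_inv_cancel₀ h4.ne', one_mul]
  have h3 : ∀ j, N (Pi.single j 1) = 1 := by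
    intro j
    refine le_antisymm ?_ ?_
    · refine hsup _ _ fun m => ?_
      by_cases hj : (j : ℕ) < m
      · have : tr m (Pi.single j 1) = Pi.single j 1 := by
          ext i
          simp only [tr]
          by_cases hi : i = j
          · subst hi
            rw [if_pos hj]
          · rw [Pi.single_eq_of_ne hi]
            simp
        rw [this, hsingle]
      · have : tr m (Pi.single j 1) = 0 := by
          ext i
          simp only [tr]
          by_cases hi : i = j
          · subst hi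
            rw [if_neg hj]
            rfl
          · rw [Pi.single_eq_of_ne hi]
            simp
        rw [this, hzero]
        exact zero_le_one
    · have := hNub (Pi.single j 1)
      rwa [hsingle] at this
  have h4 : ∀ (t : Fin k → ℝ) (m : ℕ), N (fun j => if (j : ℕ) < m then t j else 0) ≤ N t := by
    intro t m
    change N (tr m t) ≤ N t
    refine hsup _ _ fun m' => ?_
    rw [htrtr]
    exact hle _ _
  refine ⟨N, ⟨h1, h2, ?_, h3, h4⟩, fun t => ⟨hNub t, hsup _ _ fun m => hm t m⟩⟩
  intro t ht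
  ext j
  have := coord_le_of h1 h2 h3 h4 t j
  rw [ht, mul_zero] at this
  simpa using abs_nonpos_iff.1 this

theorem exists_asymStruct_aux {k : ℕ} (c : ℝ)
    (h : ∀ δ : ℝ, 0 < δ → Game X k fun x => ((∀ j, ‖x j‖ = 1) ∧ c ≤ ‖∑ j, x j‖) ∧
      ∀ (t : Fin k → ℝ) (m : ℕ),
        seqN x (fun j => if (j : ℕ) < m then t j else 0) ≤ (1 + δ) * seqN x t) :
    ∃ N ∈ AsymStruct X k, c ≤ N fun _ => 1 := by
  classical
  by_contra hcon
  have hneg : ∀ N : (Fin k → ℝ) → ℝ, (IsE k N ∧ c ≤ N fun _ => 1) →
      ∃ ε : ℝ, 0 < ε ∧ ¬ Game X k fun x => EquivN (1 + ε) (seqN x) N := by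
    rintro N ⟨hN, hc⟩
    by_contra h2
    push Not at h2
    exact hcon ⟨N, ⟨hN, h2⟩, hc⟩
  choose! ε hε hgame using hneg
  let θ : ((Fin k → ℝ) → ℝ) → ℝ := fun N => min 1 (ε N) / 16
  have hθ : ∀ N : (Fin k → ℝ) → ℝ, (IsE k N ∧ c ≤ N fun _ => 1) → 0 < θ N := fun N hN => by
    have := hε N hN
    simp only [θ]
    positivity
  have hV : ∀ N : (Fin k → ℝ) → ℝ, (IsE k N ∧ c ≤ N fun _ => 1) → ∃ V ∈ nhds N,
      ∀ N' ∈ V, IsE k N' → ∀ t, N' t ≤ (1 + θ N) * N t ∧ N t ≤ (1 + θ N) * N' t :=
    fun N hN => exists_nhds_equiv hN.1 (θ N) (hθ N hN)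
  choose! V hV1 hV2 using hV
  obtain ⟨s, hs, hcov⟩ := (isCompact_isE (k := k) c).elim_nhds_subcover V fun N hN => hV1 N hN
  -- a common `δ`
  obtain ⟨δ, hδ, hδs⟩ : ∃ δ : ℝ, 0 < δ ∧ ∀ N ∈ s, δ ≤ θ N := by
    clear hcov
    induction s using Finset.induction_on with
    | empty => exact ⟨1, one_pos, by simp⟩
    | insert a s ha ih =>
      obtain ⟨δ, hδ, hδs⟩ := ih fun N hN => hs N (Finset.mem_insert_of_mem hN)
      refine ⟨min δ (θ a), lt_min hδ (hθ a (hs a (Finset.mem_insert_self _ _))), ?_⟩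
      intro N hN
      rcases Finset.mem_insert.1 hN with rfl | hN
      · exact min_le_right _ _
      · exact (min_le_left _ _).trans (hδs N hN)
  have h1 : Game X k fun x => ∃ N ∈ s, EquivN (1 + ε N) (seqN x) N := by
    refine game_mono ?_ (h δ hδ)
    rintro x ⟨⟨hx1, hx2⟩, hx3⟩
    obtain ⟨N', hE', hN'⟩ := exists_isE_of_almost x hx1 δ hδ hx3
    have hc' : c ≤ N' fun _ => 1 := by
      refine hx2.trans ?_
      have := (hN' fun _ => 1).1
      simpa [seqN] using this
    obtain ⟨N, hN, hN'V⟩ := Set.mem_iUnion₂.1 (hcov (show N' ∈ {N | IsE k N ∧ c ≤ N fun _ => 1} from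
      ⟨hE', hc'⟩))
    have hNA := hs N hN
    have h2 := hV2 N hNA N' hN'V hE'
    have hθ0 := hθ N hNA
    have hδ1 := hδs N hN
    have hεN := hε N hNA
    have hθ1 : 16 * θ N ≤ 1 := by
      simp only [θ]
      linarith [min_le_left (1 : ℝ) (ε N)]
    have hθ2 : 16 * θ N ≤ ε N := by
      simp only [θ]
      linarith [min_le_right (1 : ℝ) (ε N)]
    refine ⟨N, hN, (1 + θ N) * (1 + δ), 1 + θ N, by positivity, by positivity, ?_, ?_⟩
    · have ha : (1 + θ N) * (1 + δ) * (1 + θ N) ≤ (1 + θ N) * (1 + θ N) * (1 + θ N) := by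
        have : (1 + θ N) * (1 + δ) ≤ (1 + θ N) * (1 + θ N) := by
          apply mul_le_mul_of_nonneg_left _ (by positivity)
          linarith
        apply mul_le_mul_of_nonneg_right this (by positivity)
      refine ha.trans ?_
      nlinarith [mul_pos hθ0 hθ0, mul_pos (mul_pos hθ0 hθ0) hθ0]
    · intro t
      have h3 := (h2 t).1
      have h4 := (h2 t).2
      have h5 := (hN' t).1
      have h6 := (hN' t).2
      constructor
      · rw [inv_mul_le_iff₀ (by positivity)]
        calc N t ≤ (1 + θ N) * N' t := h4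
          _ ≤ (1 + θ N) * ((1 + δ) * seqN x t) := mul_le_mul_of_nonneg_left h6 (by positivity)
          _ = _ := by ring
      · exact h5.trans h3
  obtain ⟨N, hN, hg⟩ := game_exists s h1
  exact hgame N (hs N hN) hg

end game

end Pool.Agent.Helper23.AC
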